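import Mathlib
import Pool.Agent.Q240.SIC.Hilb

/-!
# The Hilbert function of the point set of a maximal equiangular tight frame
-/

set_option autoImplicit false

namespace Pool.Agent.Results.MP_d0f9e0_co.HilbertFunction

/-- `x` is a maximal equiangular tight frame in `ℂ^d`: `d²` unit vectors whose pairwise inner
products all have modulus `1/√(d+1)`. -/
def IsMaximalETF (d : ℕ) (x : Fin (d ^ 2) → EuclideanSpace ℂ (Fin d)) : Prop :=
  (∀ i, ‖x i‖ = 1) ∧ ∀ i j, i ≠ j → ‖inner ℂ (x i) (x j)‖ = 1 / Real.sqrt ((d : ℝ) + 1)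

/-- Evaluation of polynomials in `d` variables at the `d²` vectors `x i`. -/
noncomputable def evaluation {d : ℕ} (x : Fin (d ^ 2) → EuclideanSpace ℂ (Fin d)) :
    MvPolynomial (Fin d) ℂ →ₗ[ℂ] (Fin (d ^ 2) → ℂ) :=
  LinearMap.pi fun i => (MvPolynomial.aeval (fun a => x i a)).toLinearMap

/-- The Hilbert function of the set of the `d²` points of projective space given by the vectors
`x i`: the dimension of the space of the value vectors `(f(x i))_i` of all homogeneous polynomials
`f` of degree `m`, that is, the number of conditions the points impose on forms of degree `m`. -/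
noncomputable def hilbert {d : ℕ} (x : Fin (d ^ 2) → EuclideanSpace ℂ (Fin d)) (m : ℕ) : ℕ :=
  Module.finrank ℂ (Submodule.map (evaluation x) (MvPolynomial.homogeneousSubmodule (Fin d) ℂ m))

/-- **The Hilbert function of a maximal equiangular tight frame.** Let `x` be a maximal ETF in
`ℂ^d`, `d ≥ 2` (no symmetry is assumed). The `d²` points impose independent conditions on the forms
of every degree `m ≥ 4`, and at least `d² - d + 2` conditions on cubic forms (in particular they
impose independent conditions on cubic forms if `d = 2`). -/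
theorem result (d : ℕ) (hd : 2 ≤ d) (x : Fin (d ^ 2) → EuclideanSpace ℂ (Fin d))
    (hx : IsMaximalETF d x) :
    (∀ m : ℕ, 4 ≤ m → hilbert x m = d ^ 2) ∧ d ^ 2 - d + 2 ≤ hilbert x 3 := by
  obtain ⟨h1, h2⟩ := hx
  have hdr : (2 : ℝ) ≤ d := by exact_mod_cast hd
  constructor
  · intro m hm
    have hub : hilbert x m ≤ d ^ 2 := by
      have := Submodule.finrank_le (Submodule.map (evaluation x)
        (MvPolynomial.homogeneousSubmodule (Fin d) ℂ m))
      rw [Module.finrank_fintype_fun_eq_card, Fintype.card_fin] at this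
      exact this
    have h := Pool.Agent.Q240.SIC.Hilb.hilb_lower h1 h2 m 0 (by
      have h3 : ((d : ℝ) + 1) ^ 4 ≤ ((d : ℝ) + 1) ^ m :=
        pow_le_pow_right₀ (by linarith) hm
      rw [mul_one_div, ← mul_div_assoc, div_lt_iff₀ (by positivity)]
      have h4 : (d : ℝ) ^ 2 * ((d : ℝ) ^ 2 - 1) < ((d : ℝ) + 1) ^ 4 := by nlinarith [sq_nonneg (d : ℝ)]
      push_cast
      linarith)
    change d ^ 2 ≤ hilbert x m + 0 at h
    omega
  · have h := Pool.Agent.Q240.SIC.Hilb.hilb_lower h1 h2 3 (d - 2) (by
      rw [mul_one_div, ← mul_div_assoc, div_lt_iff₀ (by positivity)]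
      push_cast [Nat.cast_sub hd]
      nlinarith [sq_nonneg (d : ℝ)])
    change d ^ 2 ≤ hilbert x 3 + (d - 2) at h
    have h3 : d ≤ d ^ 2 := by nlinarith
    omega

end Pool.Agent.Results.MP_d0f9e0_co.HilbertFunction
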